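import Pool.Agent.H586.SLB.Rec
import Pool.Agent.H870.SLB.Osa
import Pool.Agent.H588.SLB.Gap
import Pool.Agent.H385.SLB.Cont
import Pool.Agent.H120.SLB.Clu
import Pool.Agent.H190.SLB.Sha

/-!
# The continuum theory of the slab
-/

set_option autoImplicit false

open Set

namespace Pool.Agent.H586.SLB

open Pool.Agent.N990 Pool.Agent.N990.C Pool.Agent.N990.OS

/-- **Osterwalder-Schrader reconstruction with the mass gap `π / 2`.** -/
theorem os_slab {n D : ℕ} (hn : 1 ≤ n) (hD : 2 ≤ D) (i : Fin D) :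
    ∃ (H : Type) (_ : NormedAddCommGroup H) (_ : InnerProductSpace ℂ H) (_ : CompleteSpace H)
      (T : ℝ → H →L[ℂ] H) (J : TD n D → H),
      IsOS i Sc T J ∧ IsSemi T (J 0) ∧ MassGap T (J 0) (Real.pi / 2) :=
  os_main Pool.Agent.H870.SLB.osa Pool.Agent.H588.SLB.gap Pool.Agent.H190.SLB.sha
    Pool.Agent.H385.SLB.con Pool.Agent.H120.SLB.clu hn hD i

end Pool.Agent.H586.SLB
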