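import Pool.Agent.H586.SLB.Lat
import Pool.Agent.H586.SLB.Cont
import Pool.Graph.R_pool_sql_team_seeded_63374d34.N109.CL.Asm
import Pool.Graph.R_pool_sql_team_seeded_63374d34.N109.CL.Pos

/-!
# The slab: the main statements in the terms of the library
-/

set_option autoImplicit false
set_option linter.unusedSectionVars false
set_option linter.unusedVariables false
set_option linter.style.haveILetI false

open MeasureTheory Matrix Finset Filter Topology
open scoped Matrix.Norms.Frobenius ENNReal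

namespace Pool.Agent.H586.SLB

open Pool.Agent.N986.SL Pool.Agent.N986.PB

noncomputable section

variable {N D : ℕ} {G : Subgroup (N990.UU N)} [MeasurableSpace G] [BorelSpace G]

/-- **The lattice theory**, uniformly in the thickness. -/
theorem latticeL (hG : IsClosed (G : Set (N990.UU N))) (μ : Measure G) [IsProbabilityMeasure μ]
    [μ.IsMulLeftInvariant] (D : ℕ) {ε : ℝ} (hε : 0 < ε) (hε1 : ε < 1) :
    ∃ K : ℕ, ∀ L : ℕ, 1 ≤ L → ∀ β : ℝ, (K : ℝ) * (L : ℝ) ^ K ≤ β →
    ∃ P : Measure (Link D L → G), Dlr μ chi β P ∧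
    (∀ P' : Measure (Link D L → G), Dlr μ chi β P' → P' = P) ∧
    (∃ C : ℝ, (∀ (V A : Finset (Fin D → ℤ)) (r : ℕ), (∀ a ∈ A, ∀ y ∉ V, r ≤ dd a y) →
      ∀ F : (Link D L → G) → ℝ, Measurable F → (∀ U, |F U| ≤ 1) →
      (∀ U U' : Link D L → G, (∀ l : Link D L, l.1 ∈ A → U l = U' l) → F U = F U') →
      ∀ U : Link D L → G, |expect μ chi β (cols L V) U F - ∫ U, F U ∂P| ≤
        C * A.card * Real.exp (-((1 - ε) * mass L * r))) ∧
    ∀ (A B : Finset (Fin D → ℤ)) (r : ℕ), (∀ a ∈ A, ∀ y ∈ B, r ≤ dd a y) →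
      ∀ F F' : (Link D L → G) → ℝ, Measurable F → Measurable F' → (∀ U, |F U| ≤ 1) →
      (∀ U, |F' U| ≤ 1) →
      (∀ U U' : Link D L → G, (∀ l : Link D L, l.1 ∈ A → U l = U' l) → F U = F U') →
      (∀ U U' : Link D L → G, (∀ l : Link D L, l.1 ∈ B → U l = U' l) → F' U = F' U') →
      |∫ U, F' U * F U ∂P - (∫ U, F' U ∂P) * ∫ U, F U ∂P| ≤
        C * A.card * Real.exp (-((1 - ε) * mass L * r))) ∧
    ∀ (i : Fin D) (F : (Link D L → G) → ℝ), Half i F → 0 ≤ corr i P F 0 ∧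
      ∀ n : ℕ, |corr i P F n| ≤ Real.exp (-((1 - ε) * mass L * n)) * corr i P F 0 := by
  have : CompactSpace G := isCompact_iff_compactSpace.1 hG.isCompact
  have : SecondCountableTopology (N990.UU N) := TopologicalSpace.Subtype.secondCountableTopology _
  have : SecondCountableTopology G := TopologicalSpace.Subtype.secondCountableTopology _
  have : μ.IsMulRightInvariant := right_invariant μ
  have : μ.IsInvInvariant := inv_invariant μ
  obtain ⟨K, hK⟩ := axInflU hG μ D hε hε1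
  refine ⟨K, fun L hL β hβ => ?_⟩
  obtain ⟨C, hC, hI⟩ := hK L hL β hβ
  have hm : 0 < (1 - ε) * mass L := mul_pos (by linarith) (mass_pos hL)
  obtain ⟨P, h2, h3, h4, h5⟩ := main hI hC.le hm chi_cont chi_conj
  refine ⟨P, h2, h3, ⟨_, h4, h5⟩, fun i F hF => ?_⟩
  have hg := gap_exact hI hC.le hm chi_cont chi_conj chi_inv (h2.gibbs chi_cont) i hF
  refine ⟨?_, hg⟩
  have h0 := hg 0
  simp only [Nat.cast_zero, mul_zero, neg_zero, Real.exp_zero, one_mul] at h0
  exact (abs_nonneg _).trans h0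

/-- one-parameter groups -/
lemma oneP_of_lie {X : N990.Mt N} (hX : ∀ t : ℝ, ∃ g : G, N990.mt g = NormedSpace.exp (t • X))
    (hn : ‖X‖ = 1) : ∃ γ : ℝ → G, N109.Slab.OneP X γ 1 := by
  choose γ hγ using hX
  refine ⟨γ, hn, ?_, zero_le_one, fun s hs => ?_⟩
  · have h1 := hγ 0
    rw [zero_smul, NormedSpace.exp_zero] at h1
    exact N109.Slab.mt_inj (h1.trans N990.mt_one.symm)
  · have h2 := N990.exp_second (G := G) (w := s • X) (fun t => ⟨γ (t * s), by
      rw [hγ, mul_smul]⟩)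
    rw [hγ s]
    refine h2.trans (le_of_eq ?_)
    rw [norm_smul, hn, mul_one, one_mul, Real.norm_eq_abs, sq_abs]

lemma norm_of_ortho {X : N990.Mt N} (h : N990.ip X X = 1) : ‖X‖ = 1 := by
  rw [N990.ip_self] at h
  have h0 := norm_nonneg X
  nlinarith [sq_nonneg (‖X‖ - 1)]

/-- **The continuum limit**, in the terms of the library. -/
theorem fieldL (hG : IsClosed (G : Set (N990.UU N))) (μ : Measure G) [IsProbabilityMeasure μ]
    [μ.IsMulLeftInvariant] (D n : ℕ) :
    ∃ K₀ : ℕ, ∀ (X : Fin n → N990.Mt N),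
      (∀ j, ∀ t : ℝ, ∃ g : G, N990.mt g = NormedSpace.exp (t • X j)) →
      (∀ i j, N990.ip (X i) (X j) = if i = j then 1 else 0) →
      ∀ (f : Fin n → N990.C.Pt D → Fin D → ℝ), (∀ j, Continuous (f j)) →
      ∀ K : ℕ, (∀ j p, f j p ≠ 0 → ‖p‖ ≤ K) →
      ∀ b : ℕ → ℝ, (∀ᶠ L : ℕ in atTop, (L : ℝ) ^ K₀ ≤ b L) →
      ∀ P : (L : ℕ) → Measure (Link D L → G), (∀ᶠ L : ℕ in atTop, Dlr μ chi (b L) (P L)) →
      Tendsto (fun L : ℕ => ∫ U, Complex.exp (Complex.I *
        ((Real.sqrt (b L) * ∑ j, N109.Slab.pr (N109.Slab.box D (K * L)) (N109.CL.fL (f j) L)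
          (N109.Slab.sc (X j) (ax U)) : ℝ) : ℂ)) ∂P L) atTop
        (𝓝 (Complex.exp (-(((∑ j, N990.C.QC (f j)) / 2 : ℝ) : ℂ)))) := by
  have : CompactSpace G := isCompact_iff_compactSpace.1 hG.isCompact
  have : SecondCountableTopology (N990.UU N) := TopologicalSpace.Subtype.secondCountableTopology _
  have : SecondCountableTopology G := TopologicalSpace.Subtype.secondCountableTopology _
  have : μ.IsMulRightInvariant := right_invariant μ
  obtain ⟨K₀, hK₀⟩ := N109.CL.field_tendsto (D := D) (mbU hG μ D) n (κ := 1) zero_le_one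
  refine ⟨K₀, fun X hX hort f hf K hK b hb P hP => ?_⟩
  have hγ : ∀ j, ∃ γ : ℝ → G, N109.Slab.OneP (X j) γ 1 := fun j =>
    oneP_of_lie (hX j) (norm_of_ortho (by rw [hort, if_pos rfl]))
  choose γ hγ using hγ
  have hb2 : ∀ p : G, |chi p| ≤ 2 * N := by
    intro p
    have h2 := N990.norm_mt_sub_one_sq p
    have h3 := chi_mul_inv (p) (1 : G)
    rw [inv_one, mul_one, N990.mt_one] at h3
    have h4 : ‖N990.mt p - 1‖ ^ 2 ≤ 4 * N := by
      have : ‖N990.mt p - 1‖ ≤ ‖N990.mt p‖ + ‖(1 : N990.Mt N)‖ :=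
        norm_sub_le _ _
      have h6 := N990.norm_mt_sq p
      have h7 := N990.norm_mt_sq (1 : G)
      rw [N990.mt_one] at h7
      have h8 : ‖N990.mt p - 1‖ ^ 2 ≤
          (‖N990.mt p‖ + ‖(1 : N990.Mt N)‖) ^ 2 :=
        pow_le_pow_left₀ (norm_nonneg _) this 2
      have h9 : 0 ≤ (‖N990.mt p‖ - ‖(1 : N990.Mt N)‖) ^ 2 := sq_nonneg _
      nlinarith
    rw [h3, abs_of_nonneg (by positivity)]
    linarith
  have h1 := hK₀ X γ hγ hort f hf K hK b hb (fun L => (P L).map ax) (by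
    filter_upwards [hP] with L hL
    exact (Dlr.gibbs chi_cont hL).axial chi_conj chi_cont.measurable (b := 2 * N) hb2)
  refine h1.congr fun L => ?_
  have hmeas : Measurable fun σ : N109.Slab.Cf G D L => Complex.exp (Complex.I *
      ((Real.sqrt (b L) * ∑ j, N109.Slab.pr (N109.Slab.box D (K * L)) (N109.CL.fL (f j) L)
        (N109.Slab.sc (X j) σ) : ℝ) : ℂ)) := by
    have h2 : Measurable fun σ : N109.Slab.Cf G D L => ∑ j,
        N109.Slab.pr (N109.Slab.box D (K * L)) (N109.CL.fL (f j) L) (N109.Slab.sc (X j) σ) :=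
      Finset.measurable_fun_sum _ fun j _ => N109.Slab.pr_meas (X j) _ _
    exact Complex.measurable_exp.comp ((Complex.measurable_ofReal.comp
      (h2.const_mul _)).const_mul _)
  exact integral_map ax_meas.aemeasurable hmeas.aestronglyMeasurable

end

end Pool.Agent.H586.SLB
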