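import Pool.Graph.R_pool_sql_team_seeded_63374d34.N109.SlabU.UpperU
import Pool.Graph.R_pool_sql_team_seeded_63374d34.N990.U.InflU

/-!
# The slab: the tail bound of the links, uniformly in the thickness
-/

set_option autoImplicit false
set_option linter.unusedSectionVars false
set_option linter.unusedVariables false
set_option linter.style.haveILetI false

open MeasureTheory Matrix Finset Filter
open scoped Matrix.Norms.Frobenius ENNReal

namespace Pool.Agent.H586.SLB

open Pool.Agent.N990 Pool.Agent.N986.PB Pool.Agent.N109.Slab Pool.Agent.N109.SlabU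
open Pool.Agent.N990.Mach (FU Bd Cst Sys Cut fu_iff small2U cd cd_le cd_zero)

noncomputable section

lemma bd_mono {c : Cst} {X Y : ℝ} (h : Bd c X) (hXY : X ≤ Y) : Bd c Y :=
  ⟨h.Cg.trans hXY, h.C0.trans hXY, h.c0.trans (mul_le_mul_of_nonneg_left hXY c.hc0.le),
    h.Cn.trans hXY, h.CT.trans hXY, h.Cb.trans hXY, h.Ch.trans hXY, h.cv.trans hXY,
    h.nv.trans hXY, h.r0.trans (mul_le_mul_of_nonneg_left hXY c.hr0.le), h.nm.trans hXY⟩

variable {N D : ℕ} {G : Subgroup (UU N)} [MeasurableSpace G] [BorelSpace G]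

open Pool.Agent.N986.SL in
/-- **The tail bound, uniformly in the thickness.** -/
theorem mbU (hG : IsClosed (G : Set (UU N))) (μ : Measure G) [IsProbabilityMeasure μ]
    [μ.IsMulLeftInvariant] (D : ℕ) : MbU D μ := by
  intro e he
  have hπ := Real.pi_pos
  obtain ⟨δ, hδ, L₀, hL₀⟩ := exists_margin (al := Real.pi / 4) (by positivity) (by linarith)
  obtain ⟨E, i1, i2, K₁, hsys⟩ := exists_sysU hG μ D (al := Real.pi / 4) (by positivity) hδ
  have hD0 : (0 : ℝ) ≤ D := Nat.cast_nonneg _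
  obtain ⟨k₀, hk₀, H⟩ := small2U D (Cc := 12 * D + 6) (by linarith)
  have H1 := H (e / 4) (e / 2) (by positivity) (by linarith)
  have H2 := (fu_comp (C := (K₁ : ℝ) + 1) (by have : (0 : ℝ) ≤ K₁ := Nat.cast_nonneg _; linarith)
    K₁).eventually H1
  have A1 := Pool.Agent.N990.Mach.fu_ev
    (Pool.Agent.N990.Mach.ev_rpow (a := -1 / 2 + e) (b := -1 / 2 + e / 2) 2 (by linarith))
  -- the finitely many small thicknesses
  have hfin : ∀ L : ℕ, ∃ β₀ : ℝ, 1 ≤ L → ∀ β ≥ β₀, ∀ Q : Measure (Cf G D L),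
      AxGibbs μ chi β Q → ∀ y a,
      Q.real {σ : Cf G D L | β ^ (-1 / 2 + e) / 2 < ‖Yf σ y a‖} ≤ Real.exp (-β ^ (e / 2)) := by
    intro L
    by_cases hL : 1 ≤ L
    · obtain ⟨β₀, -, h⟩ := mb_of_ax (D := D) hG μ hL he
      exact ⟨β₀, fun _ => h⟩
    · exact ⟨0, fun h => absurd h hL⟩
  choose β₀ hβ₀ using hfin
  obtain ⟨M₂, hM₂⟩ : ∃ M₂ : ℝ, ∀ L < L₀, β₀ L ≤ M₂ := by
    refine ⟨∑ L ∈ Finset.range L₀, |β₀ L|, fun L hL => (le_abs_self _).trans ?_⟩
    exact Finset.single_le_sum (f := fun L => |β₀ L|) (fun _ _ => abs_nonneg _)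
      (Finset.mem_range.2 hL)
  filter_upwards [H2, A1, Pool.Agent.N990.Mach.fu_ge M₂, Pool.Agent.N990.Mach.fu_one] with
    ⟨β, Y⟩ H2 A1 hM hY1 L hL hLY Q hQ y a
  simp only at H2 A1 hM hY1 hLY hQ ⊢
  by_cases hLL : L < L₀
  · exact hβ₀ L hL β ((hM₂ L hLL).trans hM) Q hQ y a
  push Not at hLL
  obtain ⟨c, hcal, hcD, hbd, hS⟩ := hsys L hL (hL₀ L hLL)
  have hL0 : (0 : ℝ) ≤ L := Nat.cast_nonneg _
  have hbd' : Bd c (((K₁ : ℝ) + 1) * Y ^ K₁) := by
    refine bd_mono hbd ?_
    have h1 : (L : ℝ) ^ K₁ ≤ Y ^ K₁ := pow_le_pow_left₀ hL0 hLY _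
    have h2 : (0 : ℝ) ≤ K₁ := Nat.cast_nonneg _
    have h3 : (0 : ℝ) ≤ (L : ℝ) ^ K₁ := by positivity
    nlinarith
  haveI := hQ.prob
  -- the box around `y`
  obtain ⟨V, hV⟩ : ∃ V : Finset (Site D), ∀ z, cd (L + 2) (N990.dd y z) ≤ Mach.rad k₀ β → z ∈ V := by
    refine ⟨Fintype.piFinset fun i => Finset.Icc (y i - (Mach.rad k₀ β * (L + 2) : ℕ))
      (y i + (Mach.rad k₀ β * (L + 2) : ℕ)), fun z hz => ?_⟩
    rw [Fintype.mem_piFinset]
    intro i
    rw [cd_le (by omega)] at hz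
    have := N990.dd_le.1 hz i
    rw [Finset.mem_Icc]
    omega
  have hyV : y ∈ V := hV y (by rw [N990.dd_self, cd_zero (by omega)]; exact Nat.zero_le _)
  obtain ⟨S, hcut, hLam, hd, hnrm, hw⟩ := hS V
  have h2 := fun ψ => H2 (Lab D L → G) (Lab D L → Mt N) (Lab D L → E)
    (Measure.pi fun _ : Lab D L => μ) c hcD hbd' (Site D) (Site D) S hcut V
    (by rw [hLam]) y hyV ψ (fun z hz hdz => absurd (hV z (by rw [← hd]; exact hdz)) hz)
  set E' : Set (Cf G D L) := {σ : Cf G D L | β ^ (-1 / 2 + e) / 2 < ‖Yf σ y a‖} with hE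
  have mE : MeasurableSet E' := measurableSet_lt measurable_const (Yf_meas y a)
  have h3 : Q E' ≤ ENNReal.ofReal (Real.exp (-β ^ (e / 2))) := by
    have h4 : Q E' = ∫⁻ φ, E'.indicator 1 φ ∂Q := by rw [lintegral_indicator_one mE]
    rw [h4, hQ.dlr V _ (measurable_one.indicator mE)]
    calc _ ≤ ∫⁻ φ, ENNReal.ofReal (Real.exp (-β ^ (e / 2))) ∂Q := by
          refine lintegral_mono fun ψ => ?_
          refine le_trans ?_ (h2 ψ)
          have e0 : axw (L := L) (G := G) chi β V = S.w β := by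
            rw [hw]
            funext φ
            rw [axw_eq]
            rfl
          have h5 : Pool.Agent.N986.PB.ev (Measure.pi fun _ : Lab D L => μ) (axw chi β V) V
              (E'.indicator 1) ψ ≤
              Pool.Agent.N986.PB.ev (Measure.pi fun _ : Lab D L => μ) (axw chi β V) V
                (Mach.ind fun φ => β ^ (-1 / 2 + e / 2) < S.nrm (φ y)) ψ := by
            unfold Pool.Agent.N986.PB.ev
            refine ENNReal.div_le_div_right (In_mono (fun φ => mul_le_mul_right ?_ _) _) _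
            by_cases hφ : φ ∈ E'
            · rw [Set.indicator_of_mem hφ]
              unfold Mach.ind
              rw [if_pos]
              · exact le_rfl
              · have h6 : β ^ (-1 / 2 + e) / 2 < ‖Yf φ y a‖ := hφ
                have h7 : ‖Yf φ y a‖ ≤ nrmS (φ y) := le_nrmS (φ y) a
                rw [hnrm]
                linarith
            · rw [Set.indicator_of_notMem hφ]; exact zero_le
          refine h5.trans (le_of_eq ?_)
          rw [e0]
          congr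
    _ = _ := by rw [lintegral_const, measure_univ, mul_one]
  have h8 := ENNReal.toReal_mono ENNReal.ofReal_ne_top h3
  rwa [ENNReal.toReal_ofReal (Real.exp_pos _).le] at h8

end

end Pool.Agent.H586.SLB
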