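import Pool.Graph.R_pool_sql_team_seeded_63374d34.N990.OS.Defs
import Pool.Graph.R_pool_sql_team_seeded_63374d34.N990.OS.Markov
import Pool.Graph.R_pool_sql_team_seeded_63374d34.N990.OS.Pd
import Pool.Graph.R_pool_sql_team_seeded_63374d34.N839.C.Motion

/-!
# The Osterwalder-Schrader kernel of the Gaussian slab field
-/

set_option autoImplicit false
set_option linter.unusedSectionVars false
set_option linter.unusedVariables false

open MeasureTheory Set Filter Topology
open scoped Classical InnerProductSpace ComplexConjugate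

namespace Pool.Agent.H586.SLB

open Pool.Agent.N990 Pool.Agent.N990.C Pool.Agent.N990.OS
open Pool.Agent.N839.C (tr tr_cont tr_supp tr_tr QC_tr)

noncomputable section

variable {n D : ℕ}

lemma sol_sub (f g : SrcM D) : sol (f - g) = sol f - sol g := (solL D).map_sub f g

lemma sol_zero : sol (0 : SrcM D) = 0 := (solL D).map_zero

/-- the one particle vector of the component `j` of `f` -/
def sv (f : TD n D) (j : Fin n) : HE D :=
  if h : Continuous (f j) ∧ HasCompactSupport (f j) then sol ⟨f j, h⟩ else 0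

lemma sv_eq {f : TD n D} {j : Fin n} (h : Continuous (f j) ∧ HasCompactSupport (f j)) :
    sv f j = sol ⟨f j, h⟩ := dif_pos h

lemma QC_sv {f : TD n D} {j : Fin n} (h : Continuous (f j) ∧ HasCompactSupport (f j)) :
    QC (f j) = ‖sv f j‖ ^ 2 := by
  rw [sv_eq h, ← QC_sol]

/-- all components are continuous with compact support -/
def Cs (f : TD n D) : Prop := ∀ j, Continuous (f j) ∧ HasCompactSupport (f j)

lemma half_cs {i : Fin D} {f : TD n D} (h : Half i f) : Cs f := fun j => ⟨h.cont j, h.supp j⟩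

lemma Sc_sv {f : TD n D} (h : Cs f) : Sc f = (Real.exp (-(∑ j, ‖sv f j‖ ^ 2) / 2) : ℝ) := by
  unfold Sc
  congr 4
  exact Finset.sum_congr rfl fun j _ => QC_sv (h j)

lemma cs_refl {i : Fin D} {f : TD n D} (h : Cs f) : Cs (refl i f) := fun j =>
  ⟨rfF_cont (i := i) (h j).1, rfF_supp (i := i) (h j).2⟩

lemma cs_shift {i : Fin D} {t : ℝ} {f : TD n D} (h : Cs f) : Cs (shift i t f) := fun j =>
  ⟨tr_cont (v := Pi.single i t) (h j).1, tr_supp (v := Pi.single i t) (h j).2⟩

lemma cs_sub {f g : TD n D} (h : Cs f) (h' : Cs g) : Cs (f - g) := fun j =>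
  ⟨(h j).1.sub (h' j).1, (h j).2.sub (h' j).2⟩

lemma cs_zero : Cs (0 : TD n D) := fun _ => ⟨continuous_const, HasCompactSupport.zero⟩

lemma sv_refl {i : Fin D} {f : TD n D} (h : Cs f) (j : Fin n) :
    sv (refl i f) j = Th i (sv f j) := by
  rw [sv_eq (cs_refl h j), sv_eq (h j), ← sol_rfS]
  rfl

lemma sv_sub {f g : TD n D} (h : Cs f) (h' : Cs g) (j : Fin n) :
    sv (f - g) j = sv f j - sv g j := by
  rw [sv_eq (cs_sub h h' j), sv_eq (h j), sv_eq (h' j), ← sol_sub]
  rfl

lemma sv_zero (j : Fin n) : sv (0 : TD n D) j = 0 := by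
  rw [sv_eq (cs_zero j)]
  exact sol_zero

lemma QC_shift {i : Fin D} {t : ℝ} {f : TD n D} (h : Cs f) (j : Fin n) :
    QC (shift i t f j) = QC (f j) := QC_tr (Pi.single i t) (h j).1 (h j).2

lemma Sc_shift {i : Fin D} {t : ℝ} {f : TD n D} (h : Cs f) : Sc (shift i t f) = Sc f := by
  unfold Sc
  congr 4
  exact Finset.sum_congr rfl fun j _ => QC_shift h j

lemma Th_norm (i : Fin D) (x : HE D) : ‖Th i x‖ = ‖x‖ := by
  have h := Th_inner i x x
  rw [real_inner_self_eq_norm_sq, real_inner_self_eq_norm_sq] at h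
  exact (sq_eq_sq₀ (norm_nonneg _) (norm_nonneg _)).1 h

/-- the weight of a vector -/
def wd (f : TD n D) : ℝ := Real.exp (-(∑ j, ‖sv f j‖ ^ 2) / 2)

lemma Sc_kernel {i : Fin D} {f g : TD n D} (hf : Cs f) (hg : Cs g) :
    Sc (g - refl i f) =
      ((wd f * wd g * Real.exp (∑ j, inner ℝ (Th i (sv f j)) (sv g j)) : ℝ) : ℂ) := by
  rw [Sc_sv (cs_sub hg (cs_refl hf))]
  congr 1
  unfold wd
  rw [← Real.exp_add, ← Real.exp_add]
  congr 1
  have : ∑ j, ‖sv (g - refl i f) j‖ ^ 2 = ∑ j, ‖sv g j‖ ^ 2 + ∑ j, ‖sv f j‖ ^ 2 -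
      2 * ∑ j, inner ℝ (Th i (sv f j)) (sv g j) := by
    rw [Finset.mul_sum, ← Finset.sum_add_distrib, ← Finset.sum_sub_distrib]
    refine Finset.sum_congr rfl fun j _ => ?_
    rw [sv_sub hg (cs_refl hf), sv_refl hf, norm_sub_sq_real, Th_norm, real_inner_comm]
    ring
  rw [this]
  ring

lemma half_shift {i : Fin D} {f : TD n D} (hf : Half i f) {t : ℝ} (ht : 0 ≤ t) :
    Half i (shift i t f) := by
  refine ⟨fun j => (cs_shift (half_cs hf) j).1, fun j => (cs_shift (half_cs hf) j).2,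
    fun j p hp => hf.half j _ ?_⟩
  show (p.1 - Pi.single i t : Fin D → ℝ) i < 0
  rw [Pi.sub_apply, Pi.single_eq_same]
  linarith

lemma half_zero (i : Fin D) : Half i (0 : TD n D) :=
  ⟨fun _ => continuous_const, fun _ => HasCompactSupport.zero, fun _ _ _ => rfl⟩

/-- the observables of the half space -/
abbrev HX (n D : ℕ) (i : Fin D) : Type := {f : TD n D // Half i f}

/-- the kernel -/
def kk (i : Fin D) (f g : HX n D i) : ℂ := Sc (g.1 - refl i f.1)

/-- the shifts -/
def ss (i : Fin D) (t : ℝ) (f : HX n D i) : HX n D i :=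
  if h : 0 ≤ t then ⟨shift i t f.1, half_shift f.2 h⟩ else f

lemma ss_val {i : Fin D} {t : ℝ} (ht : 0 ≤ t) (f : HX n D i) : (ss i t f).1 = shift i t f.1 := by
  unfold ss
  rw [dif_pos ht]

/-- the vacuum -/
def oo (i : Fin D) : HX n D i := ⟨0, half_zero i⟩

lemma shift_zero' (i : Fin D) (f : TD n D) : shift i 0 f = f := by
  funext j p
  unfold shift
  simp

lemma shift_add' (i : Fin D) (s t : ℝ) (f : TD n D) :
    shift i (s + t) f = shift i s (shift i t f) := by
  funext j p
  unfold shift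
  simp only
  congr 2
  rw [Pi.single_add]
  abel

lemma kk_eq (i : Fin D) (f g : HX n D i) : kk i f g =
    ((wd f.1 * wd g.1 * Real.exp (∑ j, inner ℝ (Th i (sv f.1 j)) (sv g.1 j)) : ℝ) : ℂ) :=
  Sc_kernel (half_cs f.2) (half_cs g.2)

lemma kk_herm (i : Fin D) (f g : HX n D i) : kk i f g = conj (kk i g f) := by
  rw [kk_eq, kk_eq, Complex.conj_ofReal]
  congr 2
  · ring
  · congr 1
    refine Finset.sum_congr rfl fun j _ => ?_
    rw [Th_symm, real_inner_comm]

lemma kk_pos (i : Fin D) (F : HX n D i →₀ ℂ) :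
    0 ≤ (F.sum fun a x => F.sum fun b y => conj x * y * kk i a b).re := by
  have h : Psd (n := F.support) fun a b => (fun f g : HX n D i =>
      wd f.1 * wd g.1 * Real.exp (∑ j, inner ℝ (Mo i (sv f.1 j)) (Mo i (sv g.1 j)))) a b := by
    refine (psd_one (n := F.support) fun a => wd a.1.1).mul ?_
    exact (psd_gram (n := F.support) fun a j => Mo i (sv a.1.1 j)).exp
  have h2 := re_nonneg (G := fun f g : HX n D i =>
      wd f.1 * wd g.1 * Real.exp (∑ j, inner ℝ (Mo i (sv f.1 j)) (Mo i (sv g.1 j)))) F h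
  refine h2.trans (le_of_eq ?_)
  congr 1
  unfold Finsupp.sum
  refine Finset.sum_congr rfl fun a _ => ?_
  beta_reduce
  refine Finset.sum_congr rfl fun b _ => ?_
  rw [kk_eq]
  congr 4
  refine Finset.sum_congr rfl fun j _ => ?_
  have ha := half_cs a.2 j
  have hb := half_cs b.2 j
  rw [sv_eq ha, sv_eq hb]
  exact (Th_sol (oddCut i) (fun p hp => a.2.half j p hp) (fun p hp => b.2.half j p hp)).symm

lemma kk_symm (i : Fin D) {t : ℝ} (ht : 0 ≤ t) (f g : HX n D i) :
    kk i (ss i t f) g = kk i f (ss i t g) := by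
  unfold kk
  rw [ss_val ht, ss_val ht, ← Sc_shift (i := i) (t := -t)
    (cs_sub (cs_shift (half_cs g.2)) (cs_refl (half_cs f.2)))]
  congr 1
  funext j p k
  have e1 : (p.1 - Pi.single i (-t) - Pi.single i t : Fin D → ℝ) = p.1 := by
    rw [Pi.single_neg]
    abel
  have e2 : Function.update (p.1 - Pi.single i (-t) : Fin D → ℝ) i
      (-(p.1 - Pi.single i (-t) : Fin D → ℝ) i) =
      (Function.update p.1 i (-p.1 i) - Pi.single i t : Fin D → ℝ) := by
    funext l
    by_cases h : l = i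
    · subst h
      simp only [Pi.sub_apply, Pi.single_eq_same, Function.update_self]
      ring
    · simp only [Pi.sub_apply, Function.update_of_ne h, Pi.single_eq_of_ne h]
  show g.1 j p k - (if k = i then -1 else 1) *
      f.1 j ((Function.update p.1 i (-p.1 i) - Pi.single i t : Fin D → ℝ), p.2) k =
    g.1 j ((p.1 - Pi.single i (-t) - Pi.single i t : Fin D → ℝ), p.2) k -
      (if k = i then -1 else 1) * f.1 j (Function.update (p.1 - Pi.single i (-t) : Fin D → ℝ) i
        (-(p.1 - Pi.single i (-t) : Fin D → ℝ) i), p.2) k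
  rw [e1, e2]

lemma norm_Sc_le {f : TD n D} (h : Cs f) : ‖Sc f‖ ≤ 1 := by
  rw [Sc_sv h, Complex.norm_real, Real.norm_eq_abs, abs_of_pos (Real.exp_pos _),
    Real.exp_le_one_iff]
  have : 0 ≤ ∑ j, ‖sv f j‖ ^ 2 := Finset.sum_nonneg fun j _ => sq_nonneg _
  linarith

lemma Sc_zero : Sc (0 : TD n D) = 1 := by
  rw [Sc_sv cs_zero]
  simp [sv_zero]

lemma refl_zero (i : Fin D) : refl i (0 : TD n D) = 0 := by
  funext j p k
  unfold OS.refl
  simp

lemma shift_zero2 (i : Fin D) (t : ℝ) : shift i t (0 : TD n D) = 0 := rfl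

lemma kk_oo (i : Fin D) : kk i (oo i : HX n D i) (oo i) = 1 := by
  unfold kk oo
  rw [refl_zero, sub_zero, Sc_zero]

end

end Pool.Agent.H586.SLB
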