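import Pool.Agent.H586.SLB.Mb
import Pool.Graph.R_pool_sql_team_seeded_63374d34.N986.SL.Lower
import Pool.Graph.R_pool_sql_team_seeded_63374d34.N986.SL.Cplx
import Pool.Graph.R_pool_sql_team_seeded_63374d34.N986.U.Mass

/-!
# The slab: the lattice theory, uniformly in the thickness
-/

set_option autoImplicit false
set_option linter.unusedSectionVars false
set_option linter.unusedVariables false
set_option linter.style.haveILetI false

open MeasureTheory Matrix Finset Filter Topology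
open scoped Matrix.Norms.Frobenius ENNReal

namespace Pool.Agent.H586.SLB

open Pool.Agent.N986.SL Pool.Agent.N986.PB
open Pool.Agent.N990.Mach (FU Un fu_iff)

noncomputable section

section seq

/-- iteration of the Cauchy-Schwarz inequality -/
lemma iter_pow {a : ℕ → ℝ} (h : ∀ n, a n ^ 2 ≤ a (2 * n)) (n k : ℕ) (h0 : ∀ n, 0 ≤ a n) :
    a n ^ (2 ^ k) ≤ a (2 ^ k * n) := by
  induction k with
  | zero => simp
  | succ k ih =>
    calc a n ^ (2 ^ (k + 1)) = (a n ^ (2 ^ k)) ^ 2 := by rw [← pow_mul, pow_succ]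
      _ ≤ (a (2 ^ k * n)) ^ 2 := pow_le_pow_left₀ (pow_nonneg (h0 n) _) ih 2
      _ ≤ a (2 * (2 ^ k * n)) := h _
      _ = _ := by rw [pow_succ]; congr 1; ring

/-- a log-convex bounded sequence with exponential decay -/
lemma iter_bound {a : ℕ → ℝ} {K m : ℝ} (h : ∀ n, a n ^ 2 ≤ a 0 * a (2 * n))
    (hK : ∀ n : ℕ, |a n| ≤ K * Real.exp (-(m * n))) (h0 : 0 ≤ a 0) (n : ℕ) :
    |a n| ≤ Real.exp (-(m * n)) * a 0 := by
  rcases h0.eq_or_lt with h0 | h0
  · have h1 := h n
    rw [← h0, zero_mul] at h1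
    have h2 : a n = 0 := by
      have := sq_nonneg (a n)
      exact pow_eq_zero_iff two_ne_zero |>.1 (le_antisymm h1 this)
    rw [h2, ← h0]; simp
  obtain ⟨b, hb⟩ : ∃ b : ℕ → ℝ, b = fun n => |a n| / a 0 * Real.exp (m * n) := ⟨_, rfl⟩
  have hb0 : ∀ n, 0 ≤ b n := fun n => by rw [hb]; positivity
  have hb2 : ∀ n, b n ^ 2 ≤ b (2 * n) := by
    intro n
    have h1 : (|a n| / a 0) ^ 2 ≤ |a (2 * n)| / a 0 := by
      rw [div_pow, sq_abs, div_le_div_iff₀ (by positivity) h0]
      have h2 := h n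
      have h3 := le_abs_self (a (2 * n))
      have h4 : a 0 * a (2 * n) ≤ a 0 * |a (2 * n)| := mul_le_mul_of_nonneg_left h3 h0.le
      calc a n ^ 2 * a 0 ≤ (a 0 * |a (2 * n)|) * a 0 :=
            mul_le_mul_of_nonneg_right (h2.trans h4) h0.le
        _ = _ := by ring
    rw [hb]
    simp only
    rw [mul_pow, ← Real.exp_nat_mul]
    calc (|a n| / a 0) ^ 2 * Real.exp (((2 : ℕ) : ℝ) * (m * n))
        ≤ |a (2 * n)| / a 0 * Real.exp (((2 : ℕ) : ℝ) * (m * n)) :=
          mul_le_mul_of_nonneg_right h1 (Real.exp_pos _).le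
      _ = _ := by congr 2; push_cast; ring
  have hbK : ∀ n, b n ≤ K / a 0 := by
    intro n
    rw [hb]
    simp only
    rw [div_mul_eq_mul_div]
    refine div_le_div_of_nonneg_right ?_ h0.le
    calc |a n| * Real.exp (m * n) ≤ K * Real.exp (-(m * n)) * Real.exp (m * n) :=
          mul_le_mul_of_nonneg_right (hK n) (Real.exp_pos _).le
      _ = K := by rw [mul_assoc, ← Real.exp_add]; simp
  have hb1 : b n ≤ 1 := by
    by_contra hcon
    push Not at hcon
    have h1 : Tendsto (fun k : ℕ => b n ^ (2 ^ k)) atTop atTop := by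
      have h2 := tendsto_pow_atTop_atTop_of_one_lt hcon
      have h3 : Tendsto (fun k : ℕ => 2 ^ k) atTop atTop :=
        tendsto_pow_atTop_atTop_of_one_lt (by norm_num)
      exact h2.comp h3
    obtain ⟨k, hk⟩ := (h1.eventually_gt_atTop (K / a 0)).exists
    have h4 := (iter_pow hb2 n k hb0).trans (hbK _)
    linarith
  rw [hb] at hb1
  simp only at hb1
  rw [div_mul_eq_mul_div, div_le_one h0] at hb1
  calc |a n| = |a n| * Real.exp (m * n) * Real.exp (-(m * n)) := by
        rw [mul_assoc, ← Real.exp_add]; simp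
    _ ≤ a 0 * Real.exp (-(m * n)) := mul_le_mul_of_nonneg_right hb1 (Real.exp_pos _).le
    _ = _ := mul_comm _ _

end seq

section ctx

variable {D L : ℕ} {G : Type*} [Group G] [TopologicalSpace G] [IsTopologicalGroup G]
  [CompactSpace G] [T2Space G] [SecondCountableTopology G] [MeasurableSpace G] [BorelSpace G]
  {μ : Measure G} [IsProbabilityMeasure μ] [μ.IsMulLeftInvariant] [μ.IsMulRightInvariant]
  [μ.IsInvInvariant] {χ : G → ℝ} {β m C : ℝ}
  (hI : AxInfl D L μ χ β m C) (hC : 0 ≤ C) (hm : 0 < m) (hχ : Continuous χ)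
  (hχi : ∀ a p : G, χ (a * p * a⁻¹) = χ p) (hχ' : ∀ p : G, χ p⁻¹ = χ p)
  {P : Measure (Link D L → G)} (hP : IsGibbs μ χ β Set.univ P)
include hI hC hm hχ hχi hχ' hP

/-- the form is bounded on the observables -/
lemma form_int (i : Fin D) {F F' : (Link D L → G) → ℝ} (hF : Half i F) (hF' : Half i F') :
    Integrable (fun U => F (refl i U) * F' U) P := by
  have := hP.prob
  obtain ⟨c, hc⟩ := hF.bdd
  obtain ⟨c', hc'⟩ := hF'.bdd
  refine Integrable.of_bound (C := |c| * |c'|)
    ((hF.meas.comp (refl_meas i)).mul hF'.meas).aestronglyMeasurable ?_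
  refine Eventually.of_forall fun U => ?_
  rw [Real.norm_eq_abs, abs_mul]
  exact mul_le_mul ((hc _).trans (le_abs_self _)) ((hc' _).trans (le_abs_self _)) (abs_nonneg _)
    (abs_nonneg _)

/-- Cauchy-Schwarz -/
lemma form_cs (i : Fin D) {F F' : (Link D L → G) → ℝ} (hF : Half i F) (hF' : Half i F') :
    (∫ U, F (refl i U) * F' U ∂P) ^ 2 ≤
      (∫ U, F (refl i U) * F U ∂P) * ∫ U, F' (refl i U) * F' U ∂P := by
  have i1 := form_int hI hC hm hχ hχi hχ' hP i hF hF
  have i2 := form_int hI hC hm hχ hχi hχ' hP i hF hF'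
  have i3 := form_int hI hC hm hχ hχi hχ' hP i hF' hF
  have i4 := form_int hI hC hm hχ hχi hχ' hP i hF' hF'
  have key : ∀ t : ℝ, 0 ≤ (∫ U, F' (refl i U) * F' U ∂P) * (t * t) +
      (2 * ∫ U, F (refl i U) * F' U ∂P) * t + ∫ U, F (refl i U) * F U ∂P := by
    intro t
    have h1 := rp hI hC hm hχ hχi hχ' hP i (hF.add (hF'.smul t))
    refine h1.trans (le_of_eq ?_)
    have h2 : ∀ U : Link D L → G, (F (refl i U) + t * F' (refl i U)) * (F U + t * F' U) =
        F (refl i U) * F U + t * (F (refl i U) * F' U) + t * (F' (refl i U) * F U) +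
          t ^ 2 * (F' (refl i U) * F' U) := fun U => by ring
    simp only [h2]
    have j1 : Integrable (fun U => F (refl i U) * F U + t * (F (refl i U) * F' U)) P :=
      i1.add (i2.const_mul t)
    have j2 : Integrable (fun U => F (refl i U) * F U + t * (F (refl i U) * F' U) +
        t * (F' (refl i U) * F U)) P := j1.add (i3.const_mul t)
    rw [integral_add j2 (i4.const_mul _), integral_add j1 (i3.const_mul _),
      integral_add i1 (i2.const_mul _), integral_const_mul, integral_const_mul,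
      integral_const_mul, form_symm hI hC hm hχ hχi hχ' hP i F' F]
    ring
  have h := discrim_le_zero key
  unfold discrim at h
  nlinarith

/-- **The spectral gap of the transfer matrix**, without constants. -/
theorem gap_exact (i : Fin D) {F : (Link D L → G) → ℝ} (hF : Half i F) (n : ℕ) :
    |corr i P F n| ≤ Real.exp (-(m * n)) * corr i P F 0 := by
  have := hP.prob
  obtain ⟨K, hK0, hK⟩ := pair_cluster hI hC hm hχ hχi hχ' hP i hF hF
  have hFi : Integrable F P := by
    obtain ⟨c, hc⟩ := hF.bdd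
    exact Integrable.of_bound (C := c) hF.meas.aestronglyMeasurable (Eventually.of_forall hc)
  obtain ⟨q, hq⟩ : ∃ q, q = ∫ U, F U ∂P := ⟨_, rfl⟩
  -- the centred observable
  obtain ⟨F₀, hF₀e⟩ : ∃ F₀ : (Link D L → G) → ℝ, F₀ = fun U => F U + (-1) * q := ⟨_, rfl⟩
  have hF₀ : Half i F₀ := by
    rw [hF₀e]
    exact hF.add ((Half.const i q).smul (-1))
  have hsh : ∀ k : ℕ, Half i fun U => F₀ (shift (k • e i) U) := fun k => hF₀.shift (by
    rw [Pi.smul_apply, e_apply, if_pos rfl]
    simp)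
  have hcor : ∀ k : ℕ, corr i P F k = ∫ U, F₀ (refl i U) * F₀ (shift (k • e i) U) ∂P := by
    intro k
    have hs : Half i fun U => F (shift (k • e i) U) := hF.shift (by
      rw [Pi.smul_apply, e_apply, if_pos rfl]
      simp)
    have i1 := form_int hI hC hm hχ hχi hχ' hP i hF hs
    have i2 : Integrable (fun U => F (refl i U)) P := by
      obtain ⟨c, hc⟩ := hF.bdd
      exact Integrable.of_bound (C := c) (hF.meas.comp (refl_meas i)).aestronglyMeasurable
        (Eventually.of_forall fun U => hc _)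
    have i3 : Integrable (fun U => F (shift (k • e i) U)) P := by
      obtain ⟨c, hc⟩ := hF.bdd
      exact Integrable.of_bound (C := c) (hF.meas.comp (shift_meas _)).aestronglyMeasurable
        (Eventually.of_forall fun U => hc _)
    rw [hF₀e]
    have h2 : ∀ U : Link D L → G, (F (refl i U) + (-1) * q) * (F (shift (k • e i) U) + (-1) * q) =
        F (refl i U) * F (shift (k • e i) U) + (-q) * F (refl i U) +
          (-q) * F (shift (k • e i) U) + q ^ 2 := fun U => by ring
    simp only [h2]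
    have j1 : Integrable (fun U => F (refl i U) * F (shift (k • e i) U) +
        (-q) * F (refl i U)) P := i1.add (i2.const_mul _)
    have j2 : Integrable (fun U => F (refl i U) * F (shift (k • e i) U) +
        (-q) * F (refl i U) + (-q) * F (shift (k • e i) U)) P := j1.add (i3.const_mul _)
    rw [integral_add j2 (integrable_const _), integral_add j1 (i3.const_mul _),
      integral_add i1 (i2.const_mul _), integral_const_mul, integral_const_mul,
      int_refl hI hC hm hχ hχi hχ' hP i F, int_shift hI hC hm hχ hχi hχ' hP (k • e i) F,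
      integral_const, probReal_univ, one_smul, ← hq]
    unfold corr
    rw [← hq]
    ring
  have h00 : ∀ U : Link D L → G, shift (0 • e i) U = U := by
    intro U
    funext l
    show U (l.1 + 0 • e i, l.2) = U l
    rw [zero_smul, add_zero]
  have hcs : ∀ k : ℕ, corr i P F k ^ 2 ≤ corr i P F 0 * corr i P F (2 * k) := by
    intro k
    have h1 := form_cs hI hC hm hχ hχi hχ' hP i hF₀ (hsh k)
    rw [hcor k, hcor 0, hcor (2 * k)]
    simp only [h00]
    refine h1.trans (le_of_eq ?_)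
    congr 1
    rw [form_shift hI hC hm hχ hχi hχ' hP i k F₀ fun U => F₀ (shift (k • e i) U)]
    refine integral_congr_ae (Eventually.of_forall fun U => ?_)
    show F₀ (refl i U) * F₀ (shift (k • e i) (shift (k • e i) U)) = _
    rw [shift_shift, ← two_nsmul, ← mul_smul]
  refine iter_bound hcs (K := K) (fun k => ?_) ?_ n
  · refine le_trans (le_of_eq ?_) (hK k)
    unfold corr
    rw [sq]
  · rw [hcor 0]
    simp only [h00]
    exact rp hI hC hm hχ hχi hχ' hP i hF₀

end ctx

variable {N D : ℕ} {G : Subgroup (N990.UU N)} [MeasurableSpace G] [BorelSpace G]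

/-- the influence of the boundary condition in the axial gauge, uniformly in the thickness -/
theorem axInflU (hG : IsClosed (G : Set (N990.UU N))) (μ : Measure G) [IsProbabilityMeasure μ]
    [μ.IsMulLeftInvariant] (D : ℕ) {ε : ℝ} (hε : 0 < ε) (hε1 : ε < 1) :
    ∃ K : ℕ, ∀ L : ℕ, 1 ≤ L → ∀ β : ℝ, (K : ℝ) * (L : ℝ) ^ K ≤ β →
      ∃ C : ℝ, 0 < C ∧ AxInfl D L μ chi β ((1 - ε) * mass L) C := by
  obtain ⟨K, hK⟩ := N990.slab_infl_U hG μ D hε hε1
  refine ⟨K, fun L hL β hβ => ?_⟩
  obtain ⟨C, hC, h2⟩ := hK L hL β hβ (mass L) (mass_nonneg L) (by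
    rw [cosh_mass]
    unfold N990.lam0
    ring)
  refine ⟨C, hC, fun V A r hA f hf hf1 hfA ψ ψ' => ?_⟩
  have h3 := h2 V A r hA f hf hf1 hfA ψ ψ'
  have e : (axw chi β V : (N990.Site D → N990.Lab D L → G) → ℝ≥0∞) = N990.wS β V := by
    funext φ
    rw [axw_eq]
    rfl
  rw [e]
  convert h3

/-- a statement which holds eventually for `FU` holds for polynomially large couplings -/
lemma of_fu {p : ℝ × ℝ → Prop} (h : ∀ᶠ q in FU, p q) :
    ∃ K : ℕ, ∀ L : ℕ, 1 ≤ L → ∀ β : ℝ, (K : ℝ) * (L : ℝ) ^ K ≤ β → p (β, L) := by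
  obtain ⟨n, hn⟩ := fu_iff.1 h
  refine ⟨n + 1, fun L hL β hβ => hn _ ?_⟩
  have hL' : (1 : ℝ) ≤ L := by exact_mod_cast hL
  have h1 : (1 : ℝ) ≤ (L : ℝ) ^ (n + 1) := one_le_pow₀ hL'
  have h0 : (0 : ℝ) ≤ n := Nat.cast_nonneg _
  push_cast at hβ
  refine ⟨?_, hL', ?_⟩
  · show (n : ℝ) + 1 ≤ β
    nlinarith
  · show (L : ℝ) ^ (n + 1) ≤ β
    nlinarith

/-- **The upper bound of the mass gap**, for polynomially large couplings. -/
theorem upperK (hG : IsClosed (G : Set (N990.UU N))) [Infinite G] (μ : Measure G)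
    [IsProbabilityMeasure μ] [μ.IsMulLeftInvariant] (D : ℕ) {ε : ℝ} (hε : 0 < ε) (hε1 : ε ≤ 1) :
    ∃ K : ℕ, ∀ L : ℕ, 1 ≤ L → ∀ β : ℝ, (K : ℝ) * (L : ℝ) ^ K ≤ β →
      ∀ {i0 i1 : Fin D}, i0 ≠ i1 →
      ∃ F : (Link D L → G) → ℝ, Half i0 F ∧ (∀ U, F (refl i0 U) = F U) ∧
      (∀ g : (Fin D → ℤ) → ℕ → G, (∀ x, g x 0 = 1) → ∀ U, F (gt g U) = F U) ∧
      ∀ P : Measure (Link D L → G), Dlr μ chi β P →
        0 < corr i0 P F 0 ∧
        Real.exp (-(2 * ((1 + ε) * mass L))) * corr i0 P F 0 ≤ corr i0 P F 2 := by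
  obtain ⟨K, hK⟩ := of_fu (N109.SlabU.upperU_of hG μ (mbU hG μ D) hε hε1)
  refine ⟨K, fun L hL β hβ i0 i1 h01 => ?_⟩
  exact hK L hL β hβ L hL le_rfl h01 (mass_pos hL) (by
    rw [cosh_mass]
    unfold N990.lam0
    ring)

end

end Pool.Agent.H586.SLB
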