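import Pool.Agent.H586.SLB.Stm
import Pool.Agent.H586.SLB.Ker

/-!
# Osterwalder-Schrader reconstruction of the Gaussian slab theory: assembly
-/

set_option autoImplicit false
set_option linter.unusedSectionVars false
set_option linter.unusedVariables false

open MeasureTheory Set Filter Topology
open scoped Classical InnerProductSpace ComplexConjugate

namespace Pool.Agent.H586.SLB

open Pool.Agent.N990 Pool.Agent.N990.C Pool.Agent.N990.OS

noncomputable section

variable {n D : ℕ}

lemma refl_refl' (i : Fin D) (f : TD n D) : OS.refl i (OS.refl i f) = f := by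
  funext j p k
  have := congrFun (congrFun (rfF_rfF i (f j)) p) k
  exact this

/-- **The reconstruction.** -/
theorem os_main (hosa : S_OSA) (hgap : S_GAP) (hsha : S_SHA) (hcon : S_CON) (hclu : S_CLU)
    (hn : 1 ≤ n) (hD : 2 ≤ D) (i : Fin D) :
    ∃ (H : Type) (_ : NormedAddCommGroup H) (_ : InnerProductSpace ℂ H) (_ : CompleteSpace H)
      (T : ℝ → H →L[ℂ] H) (J : TD n D → H),
      IsOS i Sc T J ∧ IsSemi T (J 0) ∧ MassGap T (J 0) (Real.pi / 2) := by
  obtain ⟨H, i1, i2, i3, J', T, hin, hdense, htr, hsemi⟩ := hosa (X := HX n D i) (kk i) (ss i) (oo i)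
    (kk_herm i) (kk_pos i)
    (fun f => Subtype.ext (by rw [ss_val le_rfl, shift_zero']))
    (fun s t hs ht f => Subtype.ext (by
      rw [ss_val (add_nonneg hs ht), ss_val hs, ss_val ht, shift_add']))
    (fun t ht f g => kk_symm i ht f g)
    (fun f g => ⟨1, fun t ht => norm_Sc_le (cs_sub (by
      rw [ss_val ht]; exact cs_shift (half_cs g.2)) (cs_refl (half_cs f.2)))⟩)
    (fun f g => by
      have h := (hcon i (OS.refl i f.1) g.1 (fun j => (cs_refl (half_cs f.2) j).1)
        (fun j => (cs_refl (half_cs f.2) j).2) (fun j => (half_cs g.2 j).1)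
        (fun j => (half_cs g.2 j).2)).continuousOn (s := Ici 0)
      refine h.congr fun t ht => ?_
      show Sc ((ss i t g).1 - OS.refl i f.1) = _
      rw [ss_val ht])
    (fun t ht => Subtype.ext (by rw [ss_val ht]; rfl))
    (kk_oo i)
  obtain ⟨J, hJ⟩ : ∃ J : TD n D → H, J = fun f => if h : Half i f then J' ⟨f, h⟩ else 0 := ⟨_, rfl⟩
  have hJe : ∀ f (h : Half i f), J f = J' ⟨f, h⟩ := fun f h => by rw [hJ]; exact dif_pos h
  have hJ0 : J 0 = J' (oo i) := hJe 0 (half_zero i)
  have himg : J '' {f | Half i f} = range J' := by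
    ext x
    constructor
    · rintro ⟨f, hf, rfl⟩
      exact ⟨⟨f, hf⟩, (hJe f hf).symm⟩
    · rintro ⟨f, rfl⟩
      exact ⟨f.1, f.2, hJe f.1 f.2⟩
  have hos : IsOS i Sc T J := by
    refine ⟨fun f g hf hg => ?_, ?_, fun t ht f hf => ?_⟩
    · rw [hJe f hf, hJe g hg, hin]
      rfl
    · rw [himg]
      exact hdense
    · rw [hJe f hf, htr t ht, hJe _ (half_shift hf ht)]
      congr 1
      exact Subtype.ext (ss_val ht _)
  have hsemi' : IsSemi T (J 0) := by rw [hJ0]; exact hsemi
  refine ⟨H, i1, i2, i3, T, J, hos, hsemi', fun t ht => ⟨⟨(Real.exp_pos _).le, fun x hx => ?_⟩, ?_⟩⟩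
  · have h1 : ∀ m : ℝ, m < Real.pi / 2 → ‖T t x‖ ≤ Real.exp (-(m * t)) * ‖x‖ := by
      intro m hm
      rw [hJ0] at hx
      refine hgap T (J' (oo i)) hsemi J' hdense m (fun f g => ?_) t ht x hx
      obtain ⟨C, hC⟩ := hclu i hm f.1 g.1 f.2 g.2
      refine ⟨C, fun s hs => ?_⟩
      refine le_trans (le_of_eq ?_) (hC s hs)
      rw [htr s hs, hin, hin, hin]
      congr 1
      have e1 : kk i f (ss i s g) = Sc (shift i s g.1 - OS.refl i f.1) := by
        show Sc ((ss i s g).1 - OS.refl i f.1) = _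
        rw [ss_val hs]
      have e2 : kk i f (oo i) = Sc f.1 := by
        rw [kk_eq, Sc_sv (half_cs f.2)]
        congr 1
        have h0 : wd (oo i : HX n D i).1 = 1 := by
          unfold wd oo
          simp [sv_zero]
        have h2 : ∀ j, sv (oo i : HX n D i).1 j = 0 := fun j => sv_zero j
        rw [h0]
        simp only [h2, inner_zero_right, Finset.sum_const_zero, Real.exp_zero, mul_one]
        rfl
      have e3 : kk i (oo i) g = Sc g.1 := by
        show Sc (g.1 - OS.refl i 0) = _
        rw [refl_zero, sub_zero]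
      rw [e1, e2, e3]
    have h2 : Tendsto (fun m : ℝ => Real.exp (-(m * t)) * ‖x‖) (𝓝[<] (Real.pi / 2))
        (𝓝 (Real.exp (-(Real.pi / 2 * t)) * ‖x‖)) := by
      have hc : Continuous fun m : ℝ => Real.exp (-(m * t)) * ‖x‖ := by fun_prop
      exact (hc.tendsto _).mono_left nhdsWithin_le_nhds
    refine ge_of_tendsto h2 ?_
    filter_upwards [self_mem_nhdsWithin] with m hm
    exact h1 m hm
  · rintro c ⟨hc0, hc⟩
    exact hsha hn hD i T J hos hsemi' t ht c hc0 hc

end

end Pool.Agent.H586.SLB
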