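import Pool.Graph.R_pool_sql_team_seeded_63374d34.N990.OS.Defs
import Pool.Graph.R_pool_sql_team_seeded_63374d34.N990.OS.Markov
import Pool.Graph.R_pool_sql_team_seeded_63374d34.N990.OS.Pd
import Pool.Graph.R_pool_sql_team_seeded_63374d34.N839.C.Rate
import Pool.Graph.R_pool_sql_team_seeded_63374d34.N839.C.Motion
import Pool.Graph.R_pool_sql_team_seeded_63374d34.N986.CL.Dir2

/-!
# Project SLB (helper586): subtasks

Goal (MP_7f377f_mp, millennium page): Osterwalder-Schrader reconstruction of the continuum limit of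
lattice Yang-Mills theory in a slab, with mass gap exactly `π / 2`.

All statements are about the definitions of the library module
`Pool/Graph/R_pool_sql_team_seeded_63374d34/N990/OS/Defs.lean` (fetch it with
`team-store fetch /workdir/pool Pool/Graph/R_pool_sql_team_seeded_63374d34/N990/OS/Defs.lean`):
`IsSemi T v` (semigroup `T t`, `t ≥ 0`, of positive contractions, strongly continuous, fixing the
unit vector `v`), `TD n D`, `Half`, `refl`, `shift`, `IsOS`, `Sc`.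
-/

set_option autoImplicit false

open MeasureTheory Set Filter Topology
open scoped Classical InnerProductSpace ComplexConjugate

namespace Pool.Agent.H586.SLB

open Pool.Agent.N990 Pool.Agent.N990.C Pool.Agent.N990.OS

/-- **Task OSA (abstract Osterwalder-Schrader reconstruction).** Only Mathlib is needed (and the
structure `IsSemi`, to be found in `N990/OS/Defs.lean`).

Proof. Let `V = X →₀ ℂ` (as a type synonym, say `def PV (K) : Type := X →₀ ℂ`), with the form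
`⟪c, d⟫ = ∑ conj (c a) * d b * K a b`; it is a `PreInnerProductSpace.Core` by `herm` and `pos`. Let `H` be
`UniformSpace.Completion V`, `A : V →ₗ[ℂ] H` the inclusion (dense range; compare `PE`, `coreE`, `HE`, `JE`,
`JE_dense`, `JE_inner` in `N990/OS/Eng.lean`, where exactly this is done over `ℝ`), and
`J x = A (single x 1)`. For `t ≥ 0` let `σ_t c = Finsupp.mapDomain (sh t) c` (linear; `Finsupp.lmapDomain`).
By `symm` `⟪A (σ_t c), A d⟫ = ⟪A c, A (σ_t d)⟫`. Put `φ t = ⟪A c, A (σ_t c)⟫`. By `symm`, `shadd`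
`‖A (σ_t c)‖ ^ 2 = ⟪A c, A (σ_{2 t} c)⟫ = φ (2 t)`, so that `φ (2t)` is real and `≥ 0`, and by
Cauchy-Schwarz `|φ t| ^ 2 ≤ ‖A c‖ ^ 2 * ‖A (σ_t c)‖ ^ 2 = φ 0 * φ (2 t)`. Iterating,
`φ (2 t) ^ (2 ^ k) ≤ φ 0 ^ (2 ^ k - 1) * φ (2 ^ k * 2 t) ≤ φ 0 ^ (2 ^ k - 1) * M`, with `M` from `bdd`; letting
`k → ∞` (if `φ (2t) > φ 0` the left side divided by the right side tends to infinity) we get
`‖A (σ_t c)‖ ≤ ‖A c‖`. Hence `T t = LinearMap.extendOfNorm (A ∘ σ_t) A` (Mathlib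
`Analysis/Normed/Operator/Extend.lean`: `extendOfNorm_eq`, `norm_extendOfNorm_apply_le`) satisfies
`T t (A c) = A (σ_t c)`, `‖T t‖ ≤ 1`; put `T t = T 0` or anything for `t < 0`. By density `T 0 = 1`,
`T (s + t) = T s * T t`, `T t` is symmetric, hence positive since `T t = T (t/2) * T (t/2)`
(`ContinuousLinearMap.IsPositive`: symmetric and `0 ≤ re ⟪T t x, x⟫ = ‖T (t/2) x‖ ^ 2`).
Strong continuity on `Ici 0`: `‖T s (A c) - T t (A c)‖ ^ 2 = φ (2 s) + φ (2 t) - 2 re φ (s + t)`, which tends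
to `0` as `s → t` by `cont` (`φ` is continuous on `Ici 0`); for general `x` use `‖T s‖ ≤ 1` and density
(e.g. `continuousOn_of_uniform_approx_of_continuousOn` or an `ε/3` argument). -/
def S_OSA : Prop := ∀ {X : Type} (K : X → X → ℂ) (sh : ℝ → X → X) (o : X),
  (∀ x y, K x y = conj (K y x)) →
  (∀ F : X →₀ ℂ, 0 ≤ (F.sum fun a x => F.sum fun b y => conj x * y * K a b).re) →
  (∀ x, sh 0 x = x) → (∀ s t, 0 ≤ s → 0 ≤ t → ∀ x, sh (s + t) x = sh s (sh t x)) →
  (∀ t, 0 ≤ t → ∀ x y, K (sh t x) y = K x (sh t y)) →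
  (∀ x y, ∃ M : ℝ, ∀ t, 0 ≤ t → ‖K x (sh t y)‖ ≤ M) →
  (∀ x y, ContinuousOn (fun t => K x (sh t y)) (Ici 0)) →
  (∀ t, 0 ≤ t → sh t o = o) → K o o = 1 →
  ∃ (H : Type) (_ : NormedAddCommGroup H) (_ : InnerProductSpace ℂ H) (_ : CompleteSpace H)
    (J : X → H) (T : ℝ → H →L[ℂ] H),
    (∀ x y, inner ℂ (J x) (J y) = K x y) ∧
    Dense (Submodule.span ℂ (range J) : Set H) ∧
    (∀ t, 0 ≤ t → ∀ x, T t (J x) = J (sh t x)) ∧ IsSemi T (J o)

/-- **Task GAP (clustering implies the mass gap).** Only Mathlib is needed (and `IsSemi`).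

Proof. Let `P x = x - ⟪v, x⟫ • v` be the projection; `T t v = v` and symmetry of `T t` (from `hT.pos`)
give `⟪v, T t x⟫ = ⟪v, x⟫`, so `T t` commutes with `P`. For `u` in the span of `range J`, `w = P u`:
`⟪w, T t w⟫ = ⟪u, T t u⟫ - ⟪u, v⟫ ⟪v, u⟫`, and by sesquilinearity (`Submodule.span_induction`, or write
`u = ∑ c_k J x_k`) there is `C` with `‖⟪w, T t w⟫‖ ≤ C exp (-m t)` for all `t ≥ 0`. (First show for `u, u'` in the
span: `∃ C, ∀ t ≥ 0, ‖⟪u, T t u'⟫ - ⟪u, v⟫ ⟪v, u'⟫‖ ≤ C exp (-m t)`, by `span_induction` twice.) Put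
`φ t = ‖T (t/2) w‖ ^ 2 = ⟪w, T t w⟫ ≥ 0` (symmetry, semigroup). Cauchy-Schwarz:
`φ t ^ 2 ≤ ‖w‖ ^ 2 * ‖T t w‖ ^ 2 = φ 0 * φ (2 t)`. Iterating: `φ t ^ (2 ^ k) ≤ φ 0 ^ (2 ^ k - 1) * φ (2 ^ k t) ≤
φ 0 ^ (2 ^ k - 1) * C * exp (-m t) ^ (2 ^ k)`, so `k → ∞` gives `φ t ≤ φ 0 * exp (-m t)`, that is
`‖T t w‖ ^ 2 = φ (2 t) ≤ exp (-2 m t) ‖w‖ ^ 2`. Since `P u`, `u ∈ span`, is dense in the orthogonal complement of `v`
(if `⟪v, x⟫ = 0` and `u_n → x` then `P u_n → P x = x`) the inequality holds for all `x` orthogonal to `v`. -/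
def S_GAP : Prop := ∀ {H : Type} [NormedAddCommGroup H] [InnerProductSpace ℂ H] [CompleteSpace H]
  (T : ℝ → H →L[ℂ] H) (v : H), IsSemi T v → ∀ {X : Type} (J : X → H),
  Dense (Submodule.span ℂ (range J) : Set H) → ∀ m : ℝ,
  (∀ x y, ∃ C : ℝ, ∀ t, 0 ≤ t →
    ‖inner ℂ (J x) (T t (J y)) - inner ℂ (J x) v * inner ℂ v (J y)‖ ≤ C * Real.exp (-(m * t))) →
  ∀ t, 0 ≤ t → ∀ x, inner ℂ v x = 0 → ‖T t x‖ ≤ Real.exp (-(m * t)) * ‖x‖

/-- **Task SHA (the mass gap is not larger than `π / 2`).**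

Proof. Suppose `c < exp (-(π/2 t))`. Step 1: there are `C ≥ 0` and `m' > π / 2` with
`‖T R x‖ ≤ C * exp (-(m' R)) * ‖x‖` for all `R ≥ 0` and all `x` with `⟪v, x⟫ = 0`, `v = J 0`. If `t = 0` then `c < 1` and
`T 0 = 1` give `x = 0` for all such `x`. If `t > 0` choose `m' > π / 2` with `c ≤ exp (-(m' t))` (continuity of `exp`),
write `R = k t + r`, `k = ⌊R / t⌋₊`, `0 ≤ r < t`; `T (k t + r) = T t ^ k * T r`, all `T s x` are orthogonal to `v`
(`T s` is symmetric and fixes `v`), so `‖T R x‖ ≤ c ^ k ‖x‖ ≤ exp (-(m' t k)) ‖x‖ ≤ exp (m' t) exp (-(m' R)) ‖x‖`.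
Step 2: let `f, g` be as in `Pool.Agent.N986.CL.not_rate_dir` (module `N986/CL/Dir2.lean`): continuous, compact
support, `f` supported in `p.1 i ≤ 0` and `g` supported in `p.1 i ≥ R`. Put (with `j₀ : Fin n` fixed)
`F s = ` the test function with component `j₀` equal to `s • rfF i f` (= the reflection of `f`) and the others `0`,
`G s = ` the one with component `j₀` equal to `s • (g shifted by -R)`; both are `Half i`, `refl i (F s)` has the component
`s • f`, and `shift i R (G s)` has the component `s • g`. By `IsOS` and `transfer`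
`⟪J (F s), T R (J (G s))⟫ = ⟪J (F s), J (shift i R (G s))⟫ = Sc (shift i R (G s) - refl i (F s))
 = exp (-QC (s • g - s • f) / 2)`. By `QC_sol` (module `N990/OS/Eng.lean`), `QC h = ‖sol h‖ ^ 2` with `sol` linear
(`solL`), so with `a = QC f`, `b = QC g` and `B = ⟪sol f, sol g⟫` (so `QC (f + g) - QC f - QC g = 2 B`) this is
`exp (-(s ^ 2 (a + b) - 2 s ^ 2 B) / 2)`. Also `⟪J (F s), v⟫ = exp (-s ^ 2 a / 2)`, `⟪v, J (G s)⟫ = exp (-s ^ 2 b / 2)` (`QC` is
invariant under the reflection: `sol_rfS`, `Th_inner`; and under horizontal translations: `QC_mot` in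
`N839/C/Motion.lean` or `QC_tr` in `N839/C/Decay.lean`), and for `x = J (F s) - ⟪v, J (F s)⟫ • v`:
`‖x‖ ^ 2 = ⟪J (F s), J (F s)⟫ - exp (-s ^ 2 a) ≤ 1 - exp (-s ^ 2 a) ≤ s ^ 2 a`, similarly for `y` and `G s`. Hence
`exp (-s ^ 2 (a + b) / 2) * |exp (s ^ 2 B) - 1| = |⟪x, T R y⟫| ≤ C exp (-(m' R)) s ^ 2 √(a b)`. Divide by `s ^ 2` and let
`s → 0+`: `|B| ≤ C exp (-(m' R)) √(a b)`. This contradicts `not_rate_dir` for `m'`. -/
def S_SHA : Prop := ∀ {n D : ℕ}, 1 ≤ n → 2 ≤ D → ∀ (i : Fin D) {H : Type} [NormedAddCommGroup H]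
  [InnerProductSpace ℂ H] [CompleteSpace H] (T : ℝ → H →L[ℂ] H) (J : TD n D → H),
  IsOS i Sc T J → IsSemi T (J 0) → ∀ t, 0 ≤ t → ∀ c : ℝ, 0 ≤ c →
  (∀ x, inner ℂ (J 0) x = 0 → ‖T t x‖ ≤ c * ‖x‖) → Real.exp (-(Real.pi / 2 * t)) ≤ c

/-- **Task CON (continuity).**

Proof. `Sc h = exp (-(∑ j, QC (h j)) / 2)`, so it is enough that `t ↦ QC (g_j shifted by t - refl f_j)` is continuous.
With `sol` (module `N990/OS/Eng.lean`), `QC h = ‖sol h‖ ^ 2` for `h : SrcM D` and `sol` linear, it is enough that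
`t ↦ sol (g shifted by t)` is continuous for every continuous `g` with compact support:
`‖sol h‖ ^ 2 = QC h ≤ ∑ i, ∫ p in Slb D, h p i ^ 2` (`QC_le` in `N839/C/Poinc.lean`), and for `h = g (· - s) - g (· - t)`
the right side tends to `0` as `s → t` by uniform continuity of `g` and since for `|s - t| ≤ 1` the support of `h` is in
a fixed ball of finite volume. -/
def S_CON : Prop := ∀ {n D : ℕ} (i : Fin D) (f g : TD n D),
  (∀ j, Continuous (f j)) → (∀ j, HasCompactSupport (f j)) → (∀ j, Continuous (g j)) →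
  (∀ j, HasCompactSupport (g j)) → Continuous fun t : ℝ => Sc (shift i t g - f)

/-- **Task CLU (clustering of the Gaussian field).**

Proof. Let `h j = shift i t g j - refl i f j`. By `Pool.Agent.N839.C.QC_rate` (module `N839/C/Rate.lean`) applied to
`shift i t g j` and `- refl i f j`, whose supports are at the distance at least `t` (in the coordinate `i`; `dist p.1 q.1` is
the sup distance),
`|QC (h j) - QC (g j) - QC (f j)| ≤ C exp (-(m t)) √(QC (g j) QC (f j))`; here `QC` is invariant under the reflection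
(`QC_sol`, `sol_rfS`, `Th_inner` in `N990/OS/Eng.lean`, `N990/OS/Refl.lean`), under sign change (`QC_sol`) and under
horizontal translations (`QC_tr` in `N839/C/Decay.lean` or `QC_mot` in `N839/C/Motion.lean`). Since
`Sc h = exp (-(∑ QC (h j)) / 2)` and `|exp (-a) - exp (-b)| ≤ |a - b|` for `a, b ≥ 0` (`QC ≥ 0`), the claim follows with the constant
`∑ j, C √(QC (g j) QC (f j)) / 2`. -/
def S_CLU : Prop := ∀ {n D : ℕ} (i : Fin D) {m : ℝ}, m < Real.pi / 2 → ∀ f g : TD n D,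
  Half i f → Half i g → ∃ C : ℝ, ∀ t, 0 ≤ t →
    ‖Sc (shift i t g - refl i f) - Sc f * Sc g‖ ≤ C * Real.exp (-(m * t))

end Pool.Agent.H586.SLB
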